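import Pool.Agent.Zk12.HT.Stm

/-!
# Project HT: value groups of the finite extensions of the p-adic numbers
-/

set_option autoImplicit false

open Polynomial

namespace Pool.Agent.Zk78.HT

theorem t_DISC : Pool.Agent.Zk12.HT.S_DISC := by
  intro p _ L _
  refine ⟨(Module.finrank ℚ_[p] L).factorial, Nat.factorial_pos _, ?_⟩
  intro z hz hz0
  set P := minpoly ℚ_[p] z with hP
  have hn : 0 < ‖z‖ := norm_pos_iff.2 hz0
  have h1 : ‖z‖ = spectralValue P := (PadicAlgCl.spectralNorm_eq p z).symm
  have h2 : sSup (Set.range (spectralValueTerms P)) ∈ Set.range (spectralValueTerms P) :=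
    Set.Nonempty.csSup_mem (Set.range_nonempty _) (spectralValueTerms_finite_range P)
  obtain ⟨i, hi⟩ := h2
  have hi' : spectralValueTerms P i = ‖z‖ := by
    rw [hi, h1]; rfl
  have hlt : i < P.natDegree := by
    by_contra h
    push Not at h
    rw [spectralValueTerms_of_natDegree_le P h] at hi'
    rw [← hi'] at hn
    exact lt_irrefl _ hn
  rw [spectralValueTerms_of_lt_natDegree P hlt] at hi'
  set c := P.coeff i with hc
  have hc0 : c ≠ 0 := by
    intro h
    rw [h, norm_zero, Real.zero_rpow] at hi'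
    · rw [← hi'] at hn
      exact lt_irrefl _ hn
    · have : (0:ℝ) < (P.natDegree:ℝ) - i := by
        rw [sub_pos]; exact_mod_cast hlt
      positivity
  obtain ⟨m, hm⟩ : ∃ m : ℕ, P.natDegree = i + m := ⟨P.natDegree - i, by omega⟩
  have hm1 : 1 ≤ m := by omega
  have hpow : ‖z‖ ^ m = ‖c‖ := by
    rw [← hi', hm]
    push_cast
    rw [add_sub_cancel_left, ← Real.rpow_natCast, ← Real.rpow_mul (norm_nonneg _),
      one_div, inv_mul_cancel₀ (by exact_mod_cast (by omega : m ≠ 0)), Real.rpow_one]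
  have hdeg : P.natDegree ≤ Module.finrank ℚ_[p] L := by
    have h3 := minpoly.natDegree_le (A := ℚ_[p]) (⟨z, hz⟩ : L)
    have h4 : minpoly ℚ_[p] (⟨z, hz⟩ : L) = P := by
      rw [hP]
      exact (minpoly.algebraMap_eq (algebraMap L (PadicAlgCl p)).injective (⟨z, hz⟩ : L)).symm
    rw [← h4]
    exact h3
  obtain ⟨q, hq⟩ : m ∣ (Module.finrank ℚ_[p] L).factorial :=
    Nat.dvd_factorial (by omega) (by omega)
  refine ⟨-c.valuation * q, ?_⟩
  rw [hq, pow_mul, hpow, Padic.norm_eq_zpow_neg_valuation hc0, zpow_mul, zpow_natCast]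

end Pool.Agent.Zk78.HT
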