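import Mathlib

/-!
# Project HT: embeddings of a field of rational functions in the `p`-adic numbers
-/

set_option autoImplicit false
set_option linter.all false

open Polynomial

namespace Pool.Agent.Zk78.HT

/-- the value of `(x - μ) / (x - μ')` -/
def Gm {L : Type} [Field L] (μ μ' : L) : Option L → L
  | none => 1
  | some ξ => (ξ - μ) / (ξ - μ')

/-- the value of the polynomial, up to squares -/
noncomputable def Dv {L : Type} [Field L] (f : L[X]) : Option L → L
  | none => f.leadingCoeff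
  | some ξ => f.eval ξ

theorem Gm_inj {L : Type} [Field L] {μ μ' : L} (hμ : μ ≠ μ') {u u' : Option L}
    (hu : u ≠ some μ') (hu' : u' ≠ some μ') (h : Gm μ μ' u = Gm μ μ' u') : u = u' := by
  match u, u' with
  | none, none => rfl
  | none, some ξ =>
    exfalso
    have h1 : ξ - μ' ≠ 0 := sub_ne_zero.2 (fun h => hu' (by rw [h]))
    change (1 : L) = (ξ - μ) / (ξ - μ') at h
    rw [eq_div_iff h1, one_mul] at h
    exact hμ (sub_right_injective h).symm
  | some ξ, none =>
    exfalso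
    have h1 : ξ - μ' ≠ 0 := sub_ne_zero.2 (fun h => hu (by rw [h]))
    change (ξ - μ) / (ξ - μ') = (1 : L) at h
    rw [div_eq_iff h1, one_mul] at h
    exact hμ (sub_right_injective h)
  | some ξ, some ξ' =>
    have h1 : ξ - μ' ≠ 0 := sub_ne_zero.2 (fun h => hu (by rw [h]))
    have h2 : ξ' - μ' ≠ 0 := sub_ne_zero.2 (fun h => hu' (by rw [h]))
    change (ξ - μ) / (ξ - μ') = (ξ' - μ) / (ξ' - μ') at h
    rw [div_eq_div_iff h1 h2] at h
    have h3 : (ξ - ξ') * (μ - μ') = 0 := by linear_combination h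
    rcases mul_eq_zero.1 h3 with h4 | h4
    · rw [sub_eq_zero.1 h4]
    · exact absurd (sub_eq_zero.1 h4) hμ

/-- two good points of the sequence -/
theorem two_points {L : Type} [Field L] [CharZero L] (e : L) (m₀ : ℕ) (u u' : Option L) :
    ∃ m m' : ℕ, m₀ ≤ m ∧ m₀ ≤ m' ∧ m ≠ m' ∧ u ≠ some (e + 2 ^ m) ∧ u ≠ some (e + 2 ^ m') ∧
      u' ≠ some (e + 2 ^ m) ∧ u' ≠ some (e + 2 ^ m') := by
  have hs : ∀ v : Option L, {m : ℕ | v = some (e + 2 ^ m)}.Finite := by
    intro v
    apply Set.Subsingleton.finite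
    intro m hm m' hm'
    have h1 : some (e + 2 ^ m) = some (e + (2 : L) ^ m') := hm.symm.trans hm'
    rw [Option.some.injEq, add_right_inj] at h1
    have h2 : ((2 ^ m : ℕ) : L) = ((2 ^ m' : ℕ) : L) := by push_cast; exact h1
    exact Nat.pow_right_injective (le_refl 2) (Nat.cast_injective h2)
  have hf := ((hs u).union (hs u')).union (Set.finite_Iio m₀)
  obtain ⟨m, hm⟩ := hf.exists_notMem
  obtain ⟨m', hm'⟩ := (hf.union (Set.finite_singleton m)).exists_notMem
  simp only [Set.mem_union, Set.mem_setOf_eq, Set.mem_Iio, Set.mem_singleton_iff, not_or,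
    not_lt] at hm hm'
  exact ⟨m, m', hm.2, hm'.1.2, fun h => hm'.2 h.symm, hm.1.1, hm'.1.1.1, hm.1.2, hm'.1.1.2⟩

/-- `p` is not a square -/
theorem p_not_sq (p : ℕ) [Fact p.Prime] {a b : ℚ_[p]} (hb : b ≠ 0) (h : a ^ 2 = (p : ℚ_[p]) * b ^ 2) :
    False := by
  have hp : (p : ℚ_[p]) ≠ 0 := by exact_mod_cast (Fact.out : p.Prime).ne_zero
  have ha : a ≠ 0 := by
    rintro rfl
    rw [zero_pow two_ne_zero] at h
    exact mul_ne_zero hp (pow_ne_zero _ hb) h.symm
  have h1 := congrArg Padic.valuation h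
  rw [Padic.valuation_mul hp (pow_ne_zero _ hb), Padic.valuation_pow, Padic.valuation_pow,
    Padic.valuation_p] at h1
  push_cast at h1
  omega

/-- change of the value of the variable -/
theorem exists_emb {k₁ k : Type} [Field k₁] [Field k] [Algebra k₁ k] {t₀ : k}
    (h1 : Transcendental k₁ t₀) (h2 : IntermediateField.adjoin k₁ {t₀} = ⊤) (p : ℕ)
    [Fact p.Prime] (φ : k →+* ℚ_[p]) :
    ∃ φ' : k →+* ℚ_[p], (∀ c : k₁, φ' (algebraMap k₁ k c) = φ (algebraMap k₁ k c)) ∧
      φ' t₀ = p * φ t₀ := by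
  have hk : CharZero k := by
    refine ⟨fun a b h => ?_⟩
    have h3 := congrArg φ h
    rw [map_natCast, map_natCast] at h3
    exact Nat.cast_injective h3
  have hp : (p : k) ≠ 0 := by exact_mod_cast (Fact.out : p.Prime).ne_zero
  have hp1 : (p : k) = algebraMap k₁ k (p : k₁) := (map_natCast _ _).symm
  have h3 : Transcendental k₁ ((p : k) * t₀) := by
    intro h
    apply h1
    have h4 : t₀ = (algebraMap k₁ k (p : k₁))⁻¹ * ((p : k) * t₀) := by
      rw [← hp1, inv_mul_cancel_left₀ hp]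
    rw [h4]
    exact (isAlgebraic_algebraMap (p : k₁)).inv.mul h
  let e := (RatFunc.algEquivOfTranscendental t₀ h1).symm
  let e' := RatFunc.algEquivOfTranscendental ((p : k) * t₀) h3
  let j : k →ₐ[k₁] IntermediateField.adjoin k₁ {t₀} :=
    ((IntermediateField.topEquiv (F := k₁) (E := k)).symm.trans
      (IntermediateField.equivOfEq h2.symm) : k →ₐ[k₁] IntermediateField.adjoin k₁ {t₀})
  let τ : k →ₐ[k₁] k := ((IntermediateField.val _).comp e'.toAlgHom).comp (e.toAlgHom.comp j)
  have hj : j t₀ = IntermediateField.AdjoinSimple.gen k₁ t₀ := Subtype.ext rfl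
  have hτ : τ t₀ = (p : k) * t₀ := by
    change ((e' (e (j t₀)) : IntermediateField.adjoin k₁ {(p : k) * t₀}) : k) = _
    rw [hj]
    have h5 : e (IntermediateField.AdjoinSimple.gen k₁ t₀) = (RatFunc.X : RatFunc k₁) :=
      RatFunc.algEquivOfTranscendental_symm_gen t₀ h1
    rw [h5]
    exact RatFunc.algEquivOfTranscendental_X ((p : k) * t₀) h3
  refine ⟨φ.comp (τ : k →+* k), fun c => ?_, ?_⟩
  · change φ (τ (algebraMap k₁ k c)) = _
    rw [τ.commutes]
  · change φ (τ t₀) = _
    rw [hτ, map_mul, map_natCast]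

end Pool.Agent.Zk78.HT
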