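import Mathlib
import Pool.Agent.Zk12.FG.Fin
import Pool.Agent.Zk78.HT.Fin1

/-!
# Project HT: the birational section conjecture for generic quadratic twists, from its parts
-/

set_option autoImplicit false
set_option linter.all false

open Polynomial

namespace Pool.Agent.Zk78.HT

open Pool.Agent.TH954 Pool.Agent.Zk12.FG Pool.Agent.Zk12.HT
open Pool.Agent.Zk94.FG (S_ULT2 ult)

attribute [-instance] DivisionRing.toRatAlgebra SubfieldClass.instSMulRat
attribute [local instance 1] DivisionRing.toRatAlgebra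

/-- the field `k₁(t₀)` is a field of rational functions in one variable more -/
theorem ratFn_cons {n : ℕ} {k₁ k : Type} [Field k₁] [Field k] [Algebra ℚ k₁] [Algebra k₁ k]
    [Algebra ℚ k] [IsScalarTower ℚ k₁ k] {t : Fin n → k₁} (ht : RatFn ℚ t) {t₀ : k}
    (h1 : Transcendental k₁ t₀) (h2 : IntermediateField.adjoin k₁ {t₀} = ⊤) :
    RatFn ℚ (Fin.cons t₀ (fun i => algebraMap k₁ k (t i)) : Fin (n + 1) → k) := by
  constructor
  · have hy : AlgebraicIndependent k₁ (fun _ : Unit => t₀) :=
      algebraicIndependent_unique_type_iff.2 h1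
    have h3 := AlgebraicIndependent.sumElim_comp ht.1 hy
    let g : Fin (n + 1) → Unit ⊕ Fin n := Fin.cases (Sum.inl ()) Sum.inr
    have hg : Function.Injective g := by
      intro a b hab
      induction a using Fin.cases with
      | zero =>
        induction b using Fin.cases with
        | zero => rfl
        | succ b => simp [g] at hab
      | succ a =>
        induction b using Fin.cases with
        | zero => simp [g] at hab
        | succ b =>
          simp only [g, Fin.cases_succ, Sum.inr.injEq] at hab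
          rw [hab]
    have h4 := h3.comp g hg
    have h5 : (Sum.elim (fun _ : Unit => t₀) (⇑(algebraMap k₁ k) ∘ t)) ∘ g =
        (Fin.cons t₀ (fun i => algebraMap k₁ k (t i)) : Fin (n + 1) → k) := by
      funext i
      induction i using Fin.cases with
      | zero => rfl
      | succ i => rfl
    rw [← h5]
    exact h4
  · set E : IntermediateField ℚ k := IntermediateField.adjoin ℚ
      (Set.range (Fin.cons t₀ (fun i => algebraMap k₁ k (t i)) : Fin (n + 1) → k)) with hE
    have hmem : ∀ i, (Fin.cons t₀ (fun i => algebraMap k₁ k (t i)) : Fin (n + 1) → k) i ∈ E :=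
      fun i => IntermediateField.subset_adjoin _ _ ⟨i, rfl⟩
    have hk₁ : ∀ c : k₁, algebraMap k₁ k c ∈ E := by
      intro c
      have h3 : (⊤ : IntermediateField ℚ k₁) ≤ E.comap (IsScalarTower.toAlgHom ℚ k₁ k) := by
        rw [← ht.2, IntermediateField.adjoin_le_iff]
        rintro _ ⟨i, rfl⟩
        exact hmem i.succ
      exact h3 IntermediateField.mem_top
    have h4 : (⊤ : IntermediateField k₁ k) ≤ E.toSubfield.toIntermediateField hk₁ := by
      rw [← h2, IntermediateField.adjoin_le_iff]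
      rintro _ rfl
      exact hmem 0
    rw [eq_top_iff]
    intro c _
    exact h4 (IntermediateField.mem_top (x := c))

/-- the local data at an embedding -/
theorem dat_emb {k F Ω B : Type} [Field k] [Field F] [Field Ω] [Field B]
    [Algebra k F] [Algebra F Ω] [Algebra k Ω] [Algebra k B] [IsScalarTower k F Ω]
    [IsAlgClosure F Ω] [IsAlgClosure k B] (s : GalSection k F Ω B) (i : Emb k)
    (pl : Plc k Ω (EC i)) (hpl : s.GivenBy (EL i) pl) {t₀ : k} (ht₀ : t₀ ≠ 0) {f : k[X]}
    (hf : Even f.natDegree) {x y : F} (hxy : algebraMap k F t₀ * y ^ 2 = aeval x f) :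
    ∃ u : Option ℚ_[(i.1 : ℕ)], Dat s t₀ f x i.2 u ∧ (∀ ξ, u = some ξ →
      Dv (f.map i.2) u = 0 → pl.val (algebraMap F Ω (aeval x f)) 0) := by
  letI a1 : Algebra k ℚ_[(i.1 : ℕ)] := (inferInstance : Algebra k (EL i))
  letI a2 : Algebra ℚ_[(i.1 : ℕ)] (EC i) := (inferInstance : Algebra (EL i) (EC i))
  haveI : IsScalarTower k ℚ_[(i.1 : ℕ)] (EC i) := inferInstanceAs (IsScalarTower k (EL i) (EC i))
  haveI : IsAlgClosure ℚ_[(i.1 : ℕ)] (EC i) := inferInstanceAs (IsAlgClosure (EL i) (EC i))
  obtain ⟨u, hu, hv⟩ := exists_dat (p := (i.1 : ℕ)) hpl ht₀ hf hxy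
  refine ⟨u, hu, fun ξ hξ hD => ?_⟩
  have h1 := hv ξ hξ
  have hD' : Dv (f.map (algebraMap k ℚ_[(i.1 : ℕ)])) u = 0 := hD
  rwa [hD', map_zero] at h1

/-- **the assembly** -/
theorem fin (hCON : S_CON) (hOBS : S_OBS) (hKOE : S_KOEP) (hPOW : S_POW) : S_HT := by
  intro n k₁ k F Ω B _ _ _ _ _ _ _ _ _ _ _ _ _ _ t t₀ f x y hS s
  classical
  haveI : CharZero k₁ := algebraRat.charZero k₁
  haveI : CharZero k := charZero_of_injective_algebraMap (algebraMap k₁ k).injective
  letI : Algebra ℚ k := ((algebraMap k₁ k).comp (algebraMap ℚ k₁)).toAlgebra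
  haveI : IsScalarTower ℚ k₁ k := IsScalarTower.of_algebraMap_eq fun _ => rfl
  have ht := ratFn_cons hS.rat hS.trans hS.gen
  have ht₀ : t₀ ≠ 0 := by
    rintro rfl
    exact hS.trans isAlgebraic_zero
  have hfk0 : f.map (algebraMap k₁ k) ≠ 0 := by
    rw [Ne, Polynomial.map_eq_zero]
    exact hS.sep.ne_zero
  have hev : Even (f.map (algebraMap k₁ k)).natDegree := by
    rw [natDegree_map]
    exact hS.even
  have hxf : aeval x (f.map (algebraMap k₁ k)) ≠ 0 := fun h => hS.x_trans ⟨_, hfk0, h⟩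
  obtain ⟨e, m₀, H⟩ := hCON n k₁ k F Ω B t t₀ f x y hS s
  choose pl hpl using fun i : Emb k => koe_emb hKOE s i
  have hva : ∀ i, (pl i).val (algebraMap F Ω (aeval x (f.map (algebraMap k₁ k)))) 0 := by
    intro i
    obtain ⟨φ', h1, h2⟩ := exists_emb hS.trans hS.gen (i.1 : ℕ) i.2
    let i' : Emb k := ⟨i.1, φ'⟩
    obtain ⟨u, hu, hv⟩ := dat_emb s i (pl i) (hpl i) ht₀ hev hS.eqn
    obtain ⟨u', hu', -⟩ := dat_emb s i' (pl i') (hpl i') ht₀ hev hS.eqn
    have huu : u = u' := unique_u hPOW H h1 hu hu'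
    rw [← huu] at hu'
    have hmap : (f.map (algebraMap k₁ k)).map φ' = (f.map (algebraMap k₁ k)).map i.2 := by
      rw [Polynomial.map_map, Polynomial.map_map]
      congr 1
      ext c
      exact h1 c
    have hD := dv_zero hmap h2 hu hu'
    have hne : ∃ ξ, u = some ξ := by
      match u, hD with
      | none, hD =>
        exfalso
        change ((f.map (algebraMap k₁ k)).map i.2).leadingCoeff = 0 at hD
        rw [leadingCoeff_eq_zero, Polynomial.map_eq_zero] at hD
        exact hfk0 hD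
      | some ξ, _ => exact ⟨ξ, rfl⟩
    obtain ⟨ξ, hξ⟩ := hne
    exact hv ξ hξ hD
  obtain ⟨O, h1, h2, h3⟩ := ult k F Ω B (Emb k) (fun i => EL i) (fun i => EC i)
    (obs_emb hOBS (n + 1) k B _ ht) (two_div hOBS (n + 1) k B _ ht) ⟨x, hS.x_trans, hS.alg⟩ s pl
    (fun i => hpl i) (aeval x (f.map (algebraMap k₁ k))) hxf hva
  exact ⟨O, h1, h2, h3⟩

end Pool.Agent.Zk78.HT
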