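import Pool.Agent.Zk12.HT.Stm

/-!
# Project HT: rational functions which are powers up to a constant
-/

set_option autoImplicit false

open Polynomial

namespace Pool.Agent.Zk78.HT

theorem mult_pow_mul {A : Type} [Field A] (p q : A[X]) (hp : p ≠ 0) (hq : q ≠ 0) (j : ℕ) (ρ : A) :
    (p ^ j * q).rootMultiplicity ρ = j * p.rootMultiplicity ρ + q.rootMultiplicity ρ := by
  rw [rootMultiplicity_mul (mul_ne_zero (pow_ne_zero _ hp) hq)]
  congr 1
  induction j with
  | zero => simp
  | succ j ih =>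
    rw [pow_succ, rootMultiplicity_mul (mul_ne_zero (pow_ne_zero _ hp) hp), ih]
    ring

theorem mult_irr {k A : Type} [Field k] [CharZero k] [Field A] [Algebra k A] {π : k[X]}
    (hπ : Irreducible π) {ρ : A} (hρ : (π.map (algebraMap k A)).eval ρ = 0) :
    (π.map (algebraMap k A)).rootMultiplicity ρ = 1 := by
  have h0 : π.map (algebraMap k A) ≠ 0 := by
    rw [Ne, Polynomial.map_eq_zero]; exact hπ.ne_zero
  have h1 := (rootMultiplicity_pos h0).2 hρ
  have h2 := rootMultiplicity_le_one_of_separable (hπ.separable.map (f := algebraMap k A)) ρ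
  omega

theorem mult_cop {k A : Type} [Field k] [Field A] [Algebra k A] {π P : k[X]}
    (hπ : Irreducible π) (hP : ¬ π ∣ P) {ρ : A} (hρ : (π.map (algebraMap k A)).eval ρ = 0) :
    (P.map (algebraMap k A)).rootMultiplicity ρ = 0 := by
  apply rootMultiplicity_eq_zero
  intro h
  obtain ⟨a, b, hab⟩ := hπ.coprime_iff_not_dvd.2 hP
  have h1 := congrArg (fun r => (r.map (algebraMap k A)).eval ρ) hab
  simp only [Polynomial.map_add, Polynomial.map_mul, eval_add, eval_mul, Polynomial.map_one,
    eval_one, hρ, mul_zero, zero_add] at h1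
  rw [h.eq_zero, mul_zero] at h1
  exact zero_ne_one h1

theorem powr_one {k A : Type} [Field k] [CharZero k] [Field A] [Algebra k A] [IsAlgClosure k A]
    {N : ℕ} (hN : 1 ≤ N) : ∀ (d : ℕ) (R : k[X]), R ≠ 0 → R.natDegree = d →
    (∀ ρ : A, N ∣ (R.map (algebraMap k A)).rootMultiplicity ρ) →
    ∃ (h : k) (D : k[X]), h ≠ 0 ∧ D ≠ 0 ∧ R = C h * D ^ N := by
  intro d
  induction d using Nat.strong_induction_on with
  | _ d ih =>
    intro R hR hd hm
    have := IsAlgClosure.isAlgClosed k (K := A)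
    by_cases h0 : d = 0
    · have h1 : R = C (R.coeff 0) := eq_C_of_natDegree_eq_zero (hd.trans h0)
      refine ⟨R.coeff 0, 1, ?_, one_ne_zero, by rw [one_pow, mul_one]; exact h1⟩
      intro h2
      rw [h2, C_0] at h1
      exact hR h1
    · have hu : ¬ IsUnit R := by
        intro hu
        exact h0 (hd ▸ natDegree_eq_zero_of_isUnit hu)
      obtain ⟨π, hπ, hdvd⟩ := WfDvdMonoid.exists_irreducible_factor hu hR
      obtain ⟨ρ, hρ⟩ := IsAlgClosed.exists_root (π.map (algebraMap k A)) (by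
        rw [degree_map]
        exact (degree_pos_of_irreducible hπ).ne')
      have hfin : FiniteMultiplicity π R :=
        FiniteMultiplicity.of_not_isUnit hπ.not_isUnit hR
      obtain ⟨R', hR', hnd⟩ := hfin.exists_eq_pow_mul_and_not_dvd
      set j := multiplicity π R with hj
      have hπ0 : π.map (algebraMap k A) ≠ 0 := by
        rw [Ne, Polynomial.map_eq_zero]; exact hπ.ne_zero
      have hR'0 : R' ≠ 0 := by
        rintro rfl
        exact hnd (dvd_zero _)
      have hR'0' : R'.map (algebraMap k A) ≠ 0 := by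
        rw [Ne, Polynomial.map_eq_zero]; exact hR'0
      have hmul : ∀ τ : A, (R.map (algebraMap k A)).rootMultiplicity τ =
          j * (π.map (algebraMap k A)).rootMultiplicity τ +
            (R'.map (algebraMap k A)).rootMultiplicity τ := by
        intro τ
        rw [hR', Polynomial.map_mul, Polynomial.map_pow]
        exact mult_pow_mul _ _ hπ0 hR'0' j τ
      have hNj : N ∣ j := by
        have h1 := hm ρ
        rw [hmul ρ, mult_irr hπ hρ, mult_cop hπ hnd hρ] at h1
        simpa using h1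
      have hj1 : 1 ≤ j := by
        rcases Nat.eq_zero_or_pos j with h | h
        · rw [h, pow_zero, one_mul] at hR'
          exact absurd (hR' ▸ hdvd) hnd
        · exact h
      have hdeg : R'.natDegree < d := by
        rw [← hd, hR', natDegree_mul (pow_ne_zero _ hπ.ne_zero) hR'0, natDegree_pow]
        have := hπ.natDegree_pos
        have : 0 < j * π.natDegree := Nat.mul_pos hj1 this
        omega
      obtain ⟨h, D, hh, hD, hRD⟩ := ih _ hdeg R' hR'0 rfl (by
        intro τ
        have h1 := hm τ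
        rw [hmul τ] at h1
        exact (Nat.dvd_add_right (hNj.mul_right _)).1 h1)
      obtain ⟨i, hi⟩ := hNj
      refine ⟨h, π ^ i * D, hh, mul_ne_zero (pow_ne_zero _ hπ.ne_zero) hD, ?_⟩
      rw [hR', hRD, hi, mul_pow, ← pow_mul, mul_comm N i]
      ring

theorem t_POWR' (k A : Type) [Field k] [CharZero k] [Field A] [Algebra k A] [IsAlgClosure k A]
  (N : ℕ) (hN : 1 ≤ N) (P Q : k[X]) (hP : P ≠ 0) (hQ : Q ≠ 0)
  (hm : ∀ ρ : A, (N : ℤ) ∣ ((P.map (algebraMap k A)).rootMultiplicity ρ : ℤ) -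
    ((Q.map (algebraMap k A)).rootMultiplicity ρ : ℤ)) :
  ∃ (h : k) (D E : k[X]), h ≠ 0 ∧ D ≠ 0 ∧ E ≠ 0 ∧ P * E ^ N = C h * (Q * D ^ N) := by
  have hP' : P.map (algebraMap k A) ≠ 0 := by
    rw [Ne, Polynomial.map_eq_zero]; exact hP
  have hQ' : Q.map (algebraMap k A) ≠ 0 := by
    rw [Ne, Polynomial.map_eq_zero]; exact hQ
  obtain ⟨h, D, hh, hD, hR⟩ := powr_one (A := A) hN _ (Q ^ (N - 1) * P)
    (mul_ne_zero (pow_ne_zero _ hQ) hP) rfl (by
      intro ρ
      rw [Polynomial.map_mul, Polynomial.map_pow, mult_pow_mul _ _ hQ' hP']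
      have h1 := hm ρ
      generalize (P.map (algebraMap k A)).rootMultiplicity ρ = a at *
      generalize (Q.map (algebraMap k A)).rootMultiplicity ρ = b at *
      zify
      rw [Nat.cast_sub hN]
      have h2 : ((N:ℤ) - (1:ℕ)) * b + a = N * b + (a - b) := by push_cast; ring
      rw [h2]
      exact (Dvd.intro _ rfl).add h1)
  refine ⟨h, D, Q, hh, hD, hQ, ?_⟩
  obtain ⟨M, rfl⟩ : ∃ M, N = M + 1 := ⟨N - 1, by omega⟩
  rw [Nat.add_sub_cancel] at hR
  calc P * Q ^ (M + 1) = Q * (Q ^ M * P) := by ring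
    _ = C h * (Q * D ^ (M + 1)) := by rw [hR]; ring

theorem t_POWR : Pool.Agent.Zk12.HT.S_POWR := by
  intro k A _ _ _ _ _ N hN P Q hP hQ hm
  exact t_POWR' k A N hN P Q hP hQ hm

end Pool.Agent.Zk78.HT
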