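import Mathlib
import Pool.Agent.Zk12.HT.Stm
import Pool.Agent.TH954.SVal
import Pool.Agent.Y158.GR.PlcL
import Pool.Agent.Zk78.HT.Fin0

/-!
# Project HT+: the local data of a section of a generic quadratic twist, at an arbitrary embedding
-/

set_option autoImplicit false
set_option linter.all false

open Polynomial

namespace Pool.Agent.Zk78.HTF

open Pool.Agent.TH954 Pool.Agent.Zk12.FG Pool.Agent.Y158.GR
open Pool.Agent.Zk78.HT (Gm Dv Gm_inj two_points)

theorem val_aeval {K M C : Type} [Field K] [Field M] [Field C] [Algebra K M] [Algebra K C]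
    {pl : Plc K M C} {x : M} {c : C} (h : pl.val x c) (P : K[X]) :
    pl.val (aeval x P) (aeval c P) := by
  induction P using Polynomial.induction_on' with
  | add P Q hP hQ => rw [map_add, map_add]; exact hP.add hQ
  | monomial n a =>
    rw [aeval_monomial, aeval_monomial]
    exact (Plc.val_alg a).mul (h.pow n)

/-- the local data of a section at an embedding; `u` is the value of `x` -/
structure Dat {k F Ω B : Type} [Field k] [Field F] [Field Ω] [Field B] [Algebra k F] [Algebra F Ω]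
    [Algebra k Ω] [Algebra k B] (s : GalSection k F Ω B) (t₀ : k) (f : k[X]) (x : F)
    {L : Type} [Field L] (φ : k →+* L) (u : Option L) : Prop where
  cls : ∀ (μ μ' h : k) (w : Ω) (N : ℕ), 1 ≤ N → h ≠ 0 → u ≠ some (φ μ) → u ≠ some (φ μ') →
    (∀ g, s.s g w = w) →
    algebraMap F Ω ((x - algebraMap k F μ) / (x - algebraMap k F μ')) = algebraMap k Ω h * w ^ N →
    Gm (φ μ) (φ μ') u ≠ 0 ∧ ∃ ω : L, Gm (φ μ) (φ μ') u = φ h * ω ^ N
  sq : ∃ η : L, Dv (f.map φ) u = φ t₀ * η ^ 2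

section

variable {k F Ω B C L : Type} [Field k] [Field F] [Field Ω] [Field B] [Field C] [Field L]
  [CharZero L] [Algebra k L] [Algebra L C] [Algebra k C] [IsScalarTower k L C]
  [IsAlgClosure L C] [Algebra k F] [Algebra F Ω] [Algebra k Ω] [Algebra k B]
  [IsScalarTower k F Ω] [IsAlgClosure F Ω] [IsAlgClosure k B]

/-- the value of a root -/
theorem root_val {s : GalSection k F Ω B} {pl : Plc k Ω C} (hpl : s.GivenBy L pl) {G : Ω}
    {g : L} (hG : pl.val G (algebraMap L C g)) {h : k} (hh : h ≠ 0) {w : Ω}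
    (hw : ∀ σ, s.s σ w = w) {N : ℕ} (hN : 1 ≤ N) (e : G = algebraMap k Ω h * w ^ N) :
    ∃ ω : L, g = algebraMap k L h * ω ^ N := by
  haveI : IsAlgClosed B := IsAlgClosure.isAlgClosed k
  haveI : Algebra.IsAlgebraic k B := IsAlgClosure.isAlgebraic
  haveI : Normal k B := IsAlgClosure.normal k B
  have hC0 : algebraMap k C h ≠ 0 := (_root_.map_ne_zero _).2 hh
  have hΩ0 : algebraMap k Ω h ≠ 0 := (_root_.map_ne_zero _).2 hh
  have h1 : pl.val (w ^ N) ((algebraMap k C h)⁻¹ * algebraMap L C g) := by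
    have h2 := ((Plc.val_alg (pl := pl) h).inv hC0).mul hG
    rwa [e, inv_mul_cancel_left₀ hΩ0] at h2
  have hwW : w ∈ pl.W := Plc.mem_of_pow_mem hN h1.mem
  obtain ⟨ω, hω⟩ := fixL_val hpl w hw hwW
  have hv : pl.val w (algebraMap L C ω) := ⟨hwW, hω.symm⟩
  refine ⟨ω, (algebraMap L C).injective ?_⟩
  have h3 := (hv.pow N).unique h1
  rw [map_mul, map_pow, h3, ← IsScalarTower.algebraMap_apply k L C,
    mul_inv_cancel_left₀ hC0]

theorem exists_dat {s : GalSection k F Ω B} {pl : Plc k Ω C} (hpl : s.GivenBy L pl) {t₀ : k}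
    (ht₀ : t₀ ≠ 0) {f : k[X]} (hf : Even f.natDegree) {x y : F}
    (hxy : algebraMap k F t₀ * y ^ 2 = aeval x f) :
    ∃ u, Dat s t₀ f x (algebraMap k L) u ∧ (∀ ξ, u = some ξ →
      pl.val (algebraMap F Ω (aeval x f))
        (algebraMap L C (Dv (f.map (algebraMap k L)) u))) := by
  haveI : IsAlgClosed B := IsAlgClosure.isAlgClosed k
  haveI : Algebra.IsAlgebraic k B := IsAlgClosure.isAlgebraic
  haveI : Normal k B := IsAlgClosure.normal k B
  set X₁ : Ω := algebraMap F Ω x with hX₁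
  have hXfix : X₁ ∈ fixL s := F_fixL s x
  have haev : algebraMap F Ω (aeval x f) = aeval X₁ f := (aeval_algebraMap_apply Ω x f).symm
  have hsub : ∀ μ μ' : k, algebraMap F Ω ((x - algebraMap k F μ) / (x - algebraMap k F μ')) =
      (X₁ - algebraMap k Ω μ) / (X₁ - algebraMap k Ω μ') := by
    intro μ μ'
    rw [map_div₀, map_sub, map_sub, ← IsScalarTower.algebraMap_apply,
      ← IsScalarTower.algebraMap_apply]
  have hCC : ∀ μ : k, pl.val (algebraMap k Ω μ) (algebraMap L C (algebraMap k L μ)) := by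
    intro μ
    rw [← IsScalarTower.algebraMap_apply k L C]
    exact Plc.val_alg μ
  by_cases hXW : X₁ ∈ pl.W
  · obtain ⟨ξ, hξ⟩ := fixL_val hpl X₁ hXfix hXW
    have hvX : pl.val X₁ (algebraMap L C ξ) := ⟨hXW, hξ.symm⟩
    have hvf : pl.val (algebraMap F Ω (aeval x f)) (algebraMap L C
        (Dv (f.map (algebraMap k L)) (some ξ))) := by
      have h1 := val_aeval hvX f
      rw [← haev] at h1
      have h2 : aeval (algebraMap L C ξ) f = algebraMap L C
          (Dv (f.map (algebraMap k L)) (some ξ)) := by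
        change _ = algebraMap L C ((f.map (algebraMap k L)).eval ξ)
        rw [aeval_algebraMap_apply, eval_map_algebraMap]
      rwa [h2] at h1
    refine ⟨some ξ, ⟨?_, ?_⟩, fun _ _ => hvf⟩
    · intro μ μ' h w N hN hh hu hu' hw hG
      have h1 : ξ - algebraMap k L μ ≠ 0 := sub_ne_zero.2 (fun h => hu (by rw [h]))
      have h2 : ξ - algebraMap k L μ' ≠ 0 := sub_ne_zero.2 (fun h => hu' (by rw [h]))
      refine ⟨div_ne_zero h1 h2, ?_⟩
      refine root_val hpl (G := (X₁ - algebraMap k Ω μ) / (X₁ - algebraMap k Ω μ')) ?_ hh hw hN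
        (by rw [← hsub, hG])
      change pl.val _ (algebraMap L C ((ξ - algebraMap k L μ) /
        (ξ - algebraMap k L μ')))
      have h3 : ∀ ν : k, pl.val (X₁ - algebraMap k Ω ν)
          (algebraMap L C (ξ - algebraMap k L ν)) := by
        intro ν
        rw [map_sub]
        exact hvX.sub (hCC ν)
      rw [map_div₀, div_eq_mul_inv, div_eq_mul_inv]
      exact (h3 μ).mul ((h3 μ').inv ((_root_.map_ne_zero _).2 h2))
    · refine root_val hpl hvf ht₀ (w := algebraMap F Ω y) (fun σ => (s.s σ).commutes y)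
        (N := 2) (by norm_num) ?_
      rw [← hxy, map_mul, map_pow, ← IsScalarTower.algebraMap_apply]
  · have hv0 : pl.val X₁⁻¹ 0 := Plc.val_inv_of_notMem hXW
    have hX0 : X₁ ≠ 0 := by
      intro h
      rw [h] at hXW
      exact hXW (zero_mem _)
    refine ⟨none, ⟨?_, ?_⟩, fun ξ h => absurd h (by simp)⟩
    · intro μ μ' h w N hN hh hu hu' hw hG
      refine ⟨one_ne_zero, ?_⟩
      refine root_val hpl (G := (X₁ - algebraMap k Ω μ) / (X₁ - algebraMap k Ω μ')) ?_ hh hw hN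
        (by rw [← hsub, hG])
      change pl.val _ (algebraMap L C 1)
      have h3 : ∀ ν : k, pl.val (1 - algebraMap k Ω ν * X₁⁻¹) 1 := by
        intro ν
        have h4 := Plc.val_one.sub ((Plc.val_alg (pl := pl) ν).mul hv0)
        rwa [mul_zero, sub_zero] at h4
      have h5 : (X₁ - algebraMap k Ω μ) / (X₁ - algebraMap k Ω μ') =
          (1 - algebraMap k Ω μ * X₁⁻¹) * (1 - algebraMap k Ω μ' * X₁⁻¹)⁻¹ := by
        have h6 : ∀ u : Ω, X₁ - u = X₁ * (1 - u * X₁⁻¹) := by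
          intro u
          field_simp
        rw [div_eq_mul_inv, h6, h6 (algebraMap k Ω μ'), mul_inv]
        field_simp
      rw [h5, map_one]
      have h7 := (h3 μ).mul ((h3 μ').inv one_ne_zero)
      rwa [inv_one, mul_one] at h7
    · obtain ⟨d, hd⟩ := hf
      have hvr : pl.val (aeval X₁⁻¹ f.reverse) (algebraMap L C
          (Dv (f.map (algebraMap k L)) none)) := by
        have h1 := val_aeval hv0 f.reverse
        have h2 : aeval (0 : C) f.reverse = algebraMap L C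
            (Dv (f.map (algebraMap k L)) none) := by
          change _ = algebraMap L C ((f.map (algebraMap k L)).leadingCoeff)
          rw [← coeff_zero_eq_aeval_zero', coeff_zero_reverse, leadingCoeff_map,
            ← IsScalarTower.algebraMap_apply]
        rwa [h2] at h1
      refine root_val hpl hvr ht₀ (w := algebraMap F Ω (y * (x ^ d)⁻¹))
        (fun σ => (s.s σ).commutes _) (N := 2) (by norm_num) ?_
      have h3 : aeval X₁⁻¹ f.reverse * X₁ ^ f.natDegree = aeval X₁ f := by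
        letI := invertibleOfNonzero hX0
        have h4 := eval₂_reverse_mul_pow (algebraMap k Ω) X₁ f
        rw [invOf_eq_inv] at h4
        exact h4
      have h5 : aeval X₁ f = algebraMap k Ω t₀ * (algebraMap F Ω y) ^ 2 := by
        rw [← haev, ← hxy, map_mul, map_pow, ← IsScalarTower.algebraMap_apply]
      rw [h5, hd] at h3
      have h6 : X₁ ^ (d + d) ≠ 0 := pow_ne_zero _ hX0
      rw [eq_comm, ← mul_left_inj' h6, h3, map_mul, map_inv₀, map_pow, ← hX₁, mul_pow, pow_add]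
      field_simp

end

/-- the value of `x` does not depend on the value of `t₀` -/
theorem unique_u {k₁ k F Ω B : Type} [Field k₁] [Field k] [Field F] [Field Ω] [Field B]
    [Algebra k₁ k] [Algebra k F] [Algebra F Ω] [Algebra k Ω] [Algebra k B]
    {s : GalSection k F Ω B} {t₀ : k} {f : k[X]} {x : F}  {e : k₁} {m₀ : ℕ}
    (H : ∀ m m' : ℕ, m₀ ≤ m → m₀ ≤ m' → ∀ N : ℕ, 1 ≤ N → ∃ (h : k₁) (w : Ω), h ≠ 0 ∧
      (∀ g, s.s g w = w) ∧
      algebraMap F Ω ((x - algebraMap k F (algebraMap k₁ k (e + 2 ^ m))) /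
        (x - algebraMap k F (algebraMap k₁ k (e + 2 ^ m')))) =
        algebraMap k Ω (algebraMap k₁ k h) * w ^ N)
    {L : Type} [Field L] [CharZero L]
    (hPOW : ∀ u : L, u ≠ 0 → (∀ m : ℕ, 0 < m → ∃ z : L, u = z ^ m) → u = 1) {φ φ' : k →+* L}
    (hφ : ∀ c : k₁, φ' (algebraMap k₁ k c) = φ (algebraMap k₁ k c)) {u u' : Option L}
    (h : Dat s t₀ f x φ u) (h' : Dat s t₀ f x φ' u') : u = u' := by
  obtain ⟨m, m', hm, hm', hmm, a1, a2, a3, a4⟩ := two_points (φ (algebraMap k₁ k e)) m₀ u u'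
  have hμ : ∀ m : ℕ, φ (algebraMap k₁ k (e + 2 ^ m)) = φ (algebraMap k₁ k e) + 2 ^ m := by
    intro m
    rw [map_add, map_add, map_pow, map_pow, map_ofNat, map_ofNat]
  have hne : φ (algebraMap k₁ k (e + 2 ^ m)) ≠ φ (algebraMap k₁ k (e + 2 ^ m')) := by
    rw [hμ, hμ]
    intro h1
    rw [add_right_inj] at h1
    have h2 : ((2 ^ m : ℕ) : L) = ((2 ^ m' : ℕ) : L) := by push_cast; exact h1
    exact hmm (Nat.pow_right_injective (le_refl 2) (Nat.cast_injective h2))
  refine Gm_inj hne (by rw [hμ]; exact a2) (by rw [hμ]; exact a4) ?_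
  have key : ∀ N : ℕ, 1 ≤ N →
      Gm (φ (algebraMap k₁ k (e + 2 ^ m))) (φ (algebraMap k₁ k (e + 2 ^ m'))) u ≠ 0 ∧
      Gm (φ (algebraMap k₁ k (e + 2 ^ m))) (φ (algebraMap k₁ k (e + 2 ^ m'))) u' ≠ 0 ∧
      ∃ ω : L,
        Gm (φ (algebraMap k₁ k (e + 2 ^ m))) (φ (algebraMap k₁ k (e + 2 ^ m'))) u /
        Gm (φ (algebraMap k₁ k (e + 2 ^ m))) (φ (algebraMap k₁ k (e + 2 ^ m'))) u' = ω ^ N := by
    intro N hN
    obtain ⟨c, w, hc, hw, hG⟩ := H m m' hm hm' N hN
    have hc' : algebraMap k₁ k c ≠ 0 := (_root_.map_ne_zero _).2 hc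
    obtain ⟨b1, ω, b2⟩ := h.cls _ _ _ w N hN hc' (by rw [hμ]; exact a1) (by rw [hμ]; exact a2) hw hG
    obtain ⟨b3, ω', b4⟩ := h'.cls _ _ _ w N hN hc' (by rw [hφ, hμ]; exact a3)
      (by rw [hφ, hμ]; exact a4) hw hG
    rw [hφ, hφ, hφ] at b4
    rw [hφ, hφ] at b3
    refine ⟨b1, b3, ω / ω', ?_⟩
    have h0 : φ (algebraMap k₁ k c) ≠ 0 := (_root_.map_ne_zero _).2 hc'
    rw [b2, b4, div_pow, mul_div_mul_left _ _ h0]
  obtain ⟨c1, c2, -⟩ := key 1 le_rfl
  have h1 := hPOW _ (div_ne_zero c1 c2) (fun N hN => (key N hN).2.2)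
  rwa [div_eq_one_iff_eq c2] at h1

/-- the value of the polynomial is zero -/
theorem dv_zero {k F Ω B : Type} [Field k] [Field F] [Field Ω] [Field B] [Algebra k F]
    [Algebra F Ω] [Algebra k Ω] [Algebra k B] {s : GalSection k F Ω B} {t₀ : k} {f : k[X]} {x : F}
    {L : Type} [Field L] {ϖ : L} (hϖ : ∀ a b : L, b ≠ 0 → a ^ 2 ≠ ϖ * b ^ 2)
    {φ φ' : k →+* L} (hφf : f.map φ' = f.map φ)
    (hφt : φ' t₀ = ϖ * φ t₀) {u : Option L} (h : Dat s t₀ f x φ u)
    (h' : Dat s t₀ f x φ' u) : Dv (f.map φ) u = 0 := by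
  by_contra hne
  obtain ⟨η, h1⟩ := h.sq
  obtain ⟨η', h2⟩ := h'.sq
  rw [hφf, h1, hφt] at h2
  rw [h1] at hne
  have ht : φ t₀ ≠ 0 := left_ne_zero_of_mul hne
  have h3 : η ^ 2 = ϖ * η' ^ 2 := by
    apply mul_left_cancel₀ ht
    rw [h2]
    ring
  refine hϖ η η' ?_ h3
  rintro rfl
  rw [zero_pow two_ne_zero, mul_zero] at h3
  rw [h3, mul_zero] at hne
  exact hne rfl

/-- change of the value of the variable -/
theorem exists_emb {k₁ k L : Type} [Field k₁] [Field k] [Field L] [Algebra k₁ k] {t₀ : k}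
    (h1 : Transcendental k₁ t₀) (h2 : IntermediateField.adjoin k₁ {t₀} = ⊤) [CharZero k₁]
    (φ : k →+* L) {ϖ : L} (hϖ : ∃ P : ℤ[X], P ≠ 0 ∧ P.eval₂ (Int.castRingHom L) ϖ = 0)
    (hϖ0 : ϖ ≠ 0) :
    ∃ φ' : k →+* L, (∀ c : k₁, φ' (algebraMap k₁ k c) = φ (algebraMap k₁ k c)) ∧
      φ' t₀ = ϖ * φ t₀ := by
  letI : Algebra k₁ L := (φ.comp (algebraMap k₁ k)).toAlgebra
  have hϖ1 : IsAlgebraic k₁ ϖ := by
    obtain ⟨P, hP0, hP⟩ := hϖ
    refine ⟨P.map (Int.castRingHom k₁), ?_, ?_⟩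
    · rwa [Ne, Polynomial.map_eq_zero_iff (RingHom.injective_int _)]
    · rw [aeval_def, eval₂_map, ← hP]
      congr 1
      exact Subsingleton.elim _ _
  have h3 : Transcendental k₁ (ϖ * φ t₀) := by
    intro h
    apply h1
    have h4 : IsAlgebraic k₁ (φ t₀) := by
      have h5 := hϖ1.inv.mul h
      rwa [inv_mul_cancel_left₀ hϖ0] at h5
    obtain ⟨P, hP0, hP⟩ := h4
    refine ⟨P, hP0, ?_⟩
    apply φ.injective
    rw [map_zero, ← hP, aeval_def, aeval_def, hom_eval₂]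
    rfl
  let e := (RatFunc.algEquivOfTranscendental t₀ h1).symm
  let e' := RatFunc.algEquivOfTranscendental (ϖ * φ t₀) h3
  let j : k →ₐ[k₁] IntermediateField.adjoin k₁ {t₀} :=
    ((IntermediateField.topEquiv (F := k₁) (E := k)).symm.trans
      (IntermediateField.equivOfEq h2.symm) : k →ₐ[k₁] IntermediateField.adjoin k₁ {t₀})
  let τ : k →ₐ[k₁] L := ((IntermediateField.val _).comp e'.toAlgHom).comp (e.toAlgHom.comp j)
  have hj : j t₀ = IntermediateField.AdjoinSimple.gen k₁ t₀ := Subtype.ext rfl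
  have hτ : τ t₀ = ϖ * φ t₀ := by
    change ((e' (e (j t₀)) : IntermediateField.adjoin k₁ {ϖ * φ t₀}) : L) = _
    rw [hj]
    have h5 : e (IntermediateField.AdjoinSimple.gen k₁ t₀) = (RatFunc.X : RatFunc k₁) :=
      RatFunc.algEquivOfTranscendental_symm_gen t₀ h1
    rw [h5]
    exact RatFunc.algEquivOfTranscendental_X (ϖ * φ t₀) h3
  exact ⟨(τ : k →+* L), fun c => τ.commutes c, hτ⟩

end Pool.Agent.Zk78.HTF
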