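import Mathlib
import Pool.Agent.Zk12.HT.Stm2
import Pool.Agent.Zk94.FG.UltMain
import Pool.Agent.N890.KO.Fin
import Pool.Agent.Zk78.HT.FinL

/-!
# Project HT+: the birational section conjecture for generic quadratic twists over finitely generated
fields, from its parts
-/

set_option autoImplicit false
set_option linter.all false

open Polynomial IsDedekindDomain NumberField

namespace Pool.Agent.Zk78.HTF


/-- a uniformizer -/
theorem exists_unif (F : Type) [Field F] [NumberField F] (w : HeightOneSpectrum (𝓞 F)) :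
    ∃ ϖ : w.adicCompletion F, ϖ ≠ 0 ∧
      (∃ P : ℤ[X], P ≠ 0 ∧ P.eval₂ (Int.castRingHom (w.adicCompletion F)) ϖ = 0) ∧
      ∀ a b : w.adicCompletion F, b ≠ 0 → a ^ 2 ≠ ϖ * b ^ 2 := by
  obtain ⟨π, hπ⟩ := w.intValuation_exists_uniformizer
  have h1 : Valued.v (((algebraMap (𝓞 F) F π : F) : w.adicCompletion F)) =
      WithZero.exp (-1 : ℤ) := by
    rw [HeightOneSpectrum.valuedAdicCompletion_eq_valuation',
      HeightOneSpectrum.valuation_of_algebraMap, hπ]
  have hv0 : ∀ a : w.adicCompletion F, a ≠ 0 → Valued.v a ≠ 0 := fun a ha =>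
    (Valuation.ne_zero_iff _).2 ha
  have h0 : ((algebraMap (𝓞 F) F π : F) : w.adicCompletion F) ≠ 0 := by
    intro h
    rw [h, map_zero] at h1
    exact WithZero.exp_ne_zero h1.symm
  refine ⟨((algebraMap (𝓞 F) F π : F) : w.adicCompletion F), h0, ?_, ?_⟩
  · have h2 : IsIntegral ℤ (algebraMap (𝓞 F) F π) := NumberField.RingOfIntegers.isIntegral_coe π
    obtain ⟨P, hP1, hP2⟩ := h2
    refine ⟨P, hP1.ne_zero, ?_⟩
    have h3 := congrArg (algebraMap F (w.adicCompletion F)) hP2
    rw [hom_eval₂, map_zero] at h3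
    have h4 : (algebraMap F (w.adicCompletion F)).comp (algebraMap ℤ F) =
        Int.castRingHom (w.adicCompletion F) := Subsingleton.elim _ _
    rw [h4] at h3
    exact h3
  · intro a b hb hab
    have ha : a ≠ 0 := by
      rintro rfl
      rw [zero_pow two_ne_zero] at hab
      exact mul_ne_zero h0 (pow_ne_zero _ hb) hab.symm
    have h4 := congrArg Valued.v hab
    rw [map_mul, map_pow, map_pow, h1] at h4
    have h5 := congrArg WithZero.log h4
    rw [WithZero.log_mul WithZero.exp_ne_zero (pow_ne_zero _ (hv0 b hb)), WithZero.log_pow,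
      WithZero.log_pow, WithZero.log_exp] at h5
    simp only [nsmul_eq_mul] at h5
    push_cast at h5
    omega


open Pool.Agent.TH954 Pool.Agent.Zk12.FG Pool.Agent.Zk12.HT
open Pool.Agent.Zk94.FG (S_ULT2 ult)
open Pool.Agent.Zk78.HT (Gm Dv)

/-- the embeddings of `k` in the completions of the number fields -/
structure EmbF (k : Type) [Field k] : Type where
  F : IntermediateField ℚ (AlgebraicClosure ℚ)
  nf : NumberField F
  w : HeightOneSpectrum (𝓞 F)
  φ : k →+* w.adicCompletion F

attribute [instance] EmbF.nf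

section

variable {k : Type} [Field k]

/-- the completion -/
def FL (i : EmbF k) : Type := i.w.adicCompletion i.F

noncomputable instance (i : EmbF k) : Field (FL i) := inferInstanceAs (Field (i.w.adicCompletion i.F))

noncomputable instance (i : EmbF k) : Algebra k (FL i) :=
  (show k →+* i.w.adicCompletion i.F from i.φ).toAlgebra

/-- its algebraic closure -/
def FC (i : EmbF k) : Type := AlgebraicClosure (i.w.adicCompletion i.F)

noncomputable instance (i : EmbF k) : Field (FC i) :=
  inferInstanceAs (Field (AlgebraicClosure (i.w.adicCompletion i.F)))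

noncomputable instance (i : EmbF k) : Algebra (FL i) (FC i) :=
  inferInstanceAs (Algebra (i.w.adicCompletion i.F) (AlgebraicClosure (i.w.adicCompletion i.F)))

noncomputable instance (i : EmbF k) : Algebra k (FC i) :=
  letI : Algebra k (i.w.adicCompletion i.F) := i.φ.toAlgebra
  inferInstanceAs (Algebra k (AlgebraicClosure (i.w.adicCompletion i.F)))

instance (i : EmbF k) : IsScalarTower k (FL i) (FC i) :=
  letI : Algebra k (i.w.adicCompletion i.F) := i.φ.toAlgebra
  inferInstanceAs (IsScalarTower k (i.w.adicCompletion i.F)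
    (AlgebraicClosure (i.w.adicCompletion i.F)))

instance (i : EmbF k) : IsAlgClosure (FL i) (FC i) :=
  inferInstanceAs (IsAlgClosure (i.w.adicCompletion i.F)
    (AlgebraicClosure (i.w.adicCompletion i.F)))

theorem charZero_fld {F L : Type} [Field F] [CharZero F] [Field L] (h : F →+* L) : CharZero L :=
  charZero_of_injective_ringHom h.injective

end

theorem obs_embF (hOBS : S_OBSF) (k B : Type) [Field k] [CharZero k] [Field B] [Algebra k B]
    [IsAlgClosure k B] (hk : (⊤ : IntermediateField ℚ k).FG) :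
    Obs k B (fun i : EmbF k => FL i) (fun i => FC i) := by
  intro T hT hne
  obtain ⟨l, a, hl, h⟩ := hOBS k B hk T hT hne
  refine ⟨l, a, hl, fun c hc => ?_⟩
  obtain ⟨F, hF, w, φ, h1⟩ := h c hc
  refine ⟨⟨F, hF, w, φ⟩, fun ι θ hθ z h2 => ?_⟩
  exact h1 (FC (k := k) ⟨F, hF, w, φ⟩) (algebraMap (FL (k := k) ⟨F, hF, w, φ⟩)
    (FC (k := k) ⟨F, hF, w, φ⟩)) ι (fun y => by
      change ι (algebraMap k B y) = algebraMap (FL (k := k) ⟨F, hF, w, φ⟩)
        (FC (k := k) ⟨F, hF, w, φ⟩) (algebraMap k (FL (k := k) ⟨F, hF, w, φ⟩) y)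
      rw [← IsScalarTower.algebraMap_apply]
      exact ι.commutes y) θ hθ z h2

/-- `2` is not infinitely divisible -/
theorem two_divF (hOBS : S_OBSF) (hPOW : S_POWF) (k B : Type) [Field k] [CharZero k] [Field B]
    [Algebra k B] [IsAlgClosure k B] (hk : (⊤ : IntermediateField ℚ k).FG) :
    ∃ N : ℕ, 0 < N ∧ ∀ c : k, c ^ N ≠ 2 := by
  obtain ⟨l, a, hl, h⟩ := obs_embF hOBS k B hk ∅ (fun _ _ h => absurd h (Finset.notMem_empty _))
    (fun _ h => absurd h (Finset.notMem_empty _))
  obtain ⟨i, -⟩ := h 1 one_ne_zero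
  haveI := charZero_fld (algebraMap i.F (i.w.adicCompletion i.F))
  by_contra hcon
  push Not at hcon
  have h1 := hPOW i.F i.w (2 : i.w.adicCompletion i.F) two_ne_zero (fun m hm => by
    obtain ⟨c, hc⟩ := hcon m hm
    refine ⟨i.φ c, ?_⟩
    rw [← map_pow, hc, map_ofNat])
  have h2 : ((2 : ℕ) : i.w.adicCompletion i.F) = ((1 : ℕ) : i.w.adicCompletion i.F) := by
    push_cast
    exact h1
  exact absurd (Nat.cast_injective h2) (by norm_num)

theorem koe_embF (hKOE : Pool.Agent.N890.KO.S_KOE) {k F Ω B : Type} [Field k] [Field F] [Field Ω]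
    [Field B] [Algebra k F] [Algebra F Ω] [Algebra k Ω] [Algebra k B] [IsScalarTower k F Ω]
    [IsAlgClosure F Ω] [IsAlgClosure k B] (s : GalSection k F Ω B) (i : EmbF k) :
    ∃ pl : Plc k Ω (FC i), s.GivenBy (FL i) pl := by
  letI a1 : Algebra k (i.w.adicCompletion i.F) := i.φ.toAlgebra
  exact hKOE i.F i.w k F Ω B s

/-- the local data at an embedding -/
theorem dat_embF {k F Ω B : Type} [Field k] [Field F] [Field Ω] [Field B]
    [Algebra k F] [Algebra F Ω] [Algebra k Ω] [Algebra k B] [IsScalarTower k F Ω]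
    [IsAlgClosure F Ω] [IsAlgClosure k B] (s : GalSection k F Ω B) (i : EmbF k)
    (pl : Plc k Ω (FC i)) (hpl : s.GivenBy (FL i) pl) {t₀ : k} (ht₀ : t₀ ≠ 0) {f : k[X]}
    (hf : Even f.natDegree) {x y : F} (hxy : algebraMap k F t₀ * y ^ 2 = aeval x f) :
    ∃ u : Option (i.w.adicCompletion i.F), Dat s t₀ f x i.φ u ∧ (∀ ξ, u = some ξ →
      Dv (f.map i.φ) u = 0 → pl.val (algebraMap F Ω (aeval x f)) 0) := by
  haveI : CharZero (FL i) :=
    charZero_fld (L := FL i) (show i.F →+* FL i from algebraMap i.F (i.w.adicCompletion i.F))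
  obtain ⟨u, hu, hv⟩ := exists_dat (L := FL i) hpl ht₀ hf hxy
  refine ⟨u, hu, fun ξ hξ hD => ?_⟩
  have h1 := hv ξ hξ
  have hD' : Dv (f.map (algebraMap k (FL i))) u = 0 := hD
  rwa [hD', map_zero] at h1

/-- the field `k₁(t₀)` is finitely generated -/
theorem fg_cons {k₁ k : Type} [Field k₁] [CharZero k₁] [Field k] [CharZero k] [Algebra k₁ k]
    (hk : (⊤ : IntermediateField ℚ k₁).FG) {t₀ : k}
    (h2 : IntermediateField.adjoin k₁ {t₀} = ⊤) : (⊤ : IntermediateField ℚ k).FG := by
  classical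
  obtain ⟨S, hS⟩ := hk
  haveI : IsScalarTower ℚ k₁ k := IsScalarTower.of_algebraMap_eq' (Subsingleton.elim _ _)
  refine ⟨insert t₀ (S.image (algebraMap k₁ k)), ?_⟩
  set E : IntermediateField ℚ k := IntermediateField.adjoin ℚ
    ((insert t₀ (S.image (algebraMap k₁ k)) : Finset k) : Set k) with hE
  have hk₁ : ∀ c : k₁, algebraMap k₁ k c ∈ E := by
    intro c
    have h3 : (⊤ : IntermediateField ℚ k₁) ≤ E.comap (IsScalarTower.toAlgHom ℚ k₁ k) := by
      rw [← hS, IntermediateField.adjoin_le_iff]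
      intro z hz
      exact IntermediateField.subset_adjoin _ _ (by
        simp only [Finset.coe_insert, Finset.coe_image, Set.mem_insert_iff, Set.mem_image,
          Finset.mem_coe]
        exact Or.inr ⟨z, hz, rfl⟩)
    exact h3 IntermediateField.mem_top
  have hmem : t₀ ∈ E := IntermediateField.subset_adjoin _ _ (by simp)
  have h4 : (⊤ : IntermediateField k₁ k) ≤ E.toSubfield.toIntermediateField hk₁ := by
    rw [← h2, IntermediateField.adjoin_le_iff]
    rintro _ rfl
    exact hmem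
  rw [eq_top_iff]
  intro c _
  exact h4 (IntermediateField.mem_top (x := c))

/-- **the assembly over finitely generated fields** -/
theorem finF (hCON : S_CONF) (hOBS : S_OBSF) (hKOE : Pool.Agent.N890.KO.S_KOE) (hPOW : S_POWF) :
    S_HTF := by
  intro k₁ k F Ω B _ _ _ _ _ _ _ _ _ _ _ _ _ _ t₀ f x y hS s
  classical
  haveI : CharZero k := charZero_of_injective_algebraMap (algebraMap k₁ k).injective
  have hfg := fg_cons hS.fg hS.gen
  have ht₀ : t₀ ≠ 0 := by
    rintro rfl
    exact hS.trans isAlgebraic_zero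
  have hfk0 : f.map (algebraMap k₁ k) ≠ 0 := by
    rw [Ne, Polynomial.map_eq_zero]
    exact hS.sep.ne_zero
  have hev : Even (f.map (algebraMap k₁ k)).natDegree := by
    rw [natDegree_map]
    exact hS.even
  have hxf : aeval x (f.map (algebraMap k₁ k)) ≠ 0 := fun h => hS.x_trans ⟨_, hfk0, h⟩
  obtain ⟨e, m₀, H⟩ := hCON k₁ k F Ω B t₀ f x y hS s
  choose pl hpl using fun i : EmbF k => koe_embF hKOE s i
  have hva : ∀ i, (pl i).val (algebraMap F Ω (aeval x (f.map (algebraMap k₁ k)))) 0 := by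
    intro i
    haveI := charZero_fld (algebraMap i.F (i.w.adicCompletion i.F))
    obtain ⟨ϖ, hϖ0, hϖ1, hϖ2⟩ := exists_unif i.F i.w
    obtain ⟨φ', h1, h2⟩ := exists_emb hS.trans hS.gen i.φ hϖ1 hϖ0
    let i' : EmbF k := ⟨i.F, i.nf, i.w, φ'⟩
    obtain ⟨u, hu, hv⟩ := dat_embF s i (pl i) (hpl i) ht₀ hev hS.eqn
    obtain ⟨u', hu', -⟩ := dat_embF s i' (pl i') (hpl i') ht₀ hev hS.eqn
    have huu : u = u' := unique_u H (hPOW i.F i.w) h1 hu hu'
    rw [← huu] at hu'
    have hmap : (f.map (algebraMap k₁ k)).map φ' = (f.map (algebraMap k₁ k)).map i.φ := by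
      rw [Polynomial.map_map, Polynomial.map_map]
      congr 1
      exact RingHom.ext fun c => h1 c
    have hD := dv_zero hϖ2 hmap h2 hu hu'
    have hne : ∃ ξ, u = some ξ := by
      match u, hD with
      | none, hD =>
        exfalso
        change ((f.map (algebraMap k₁ k)).map i.φ).leadingCoeff = 0 at hD
        rw [leadingCoeff_eq_zero, Polynomial.map_eq_zero] at hD
        exact hfk0 hD
      | some ξ, _ => exact ⟨ξ, rfl⟩
    obtain ⟨ξ, hξ⟩ := hne
    exact hv ξ hξ hD
  obtain ⟨O, h1, h2, h3⟩ := ult k F Ω B (EmbF k) (fun i => FL i) (fun i => FC i)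
    (obs_embF hOBS k B hfg) (two_divF hOBS hPOW k B hfg) ⟨x, hS.x_trans, hS.alg⟩ s pl
    (fun i => hpl i) (aeval x (f.map (algebraMap k₁ k))) hxf hva
  exact ⟨O, h1, h2, h3⟩

end Pool.Agent.Zk78.HTF
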